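import Mathlib
import Pool.Agent.Y580.LB.Stm

/-! Project LB: the frozen statement from both bounds. -/

set_option autoImplicit false

namespace Pool.Agent.Y587.LB

open Pool.Agent.Y580.LB

theorem fin : S_FIN := by
  intro hup hlow ε hε
  refine ⟨⌈7 / ε⌉₊ + 3, fun n hn => ⟨fun H hH => ?_, ?_⟩⟩
  · have h1 : (24 : ℝ) * H.card ≤ (n : ℝ) ^ 3 + 24 * (n : ℝ) ^ 2 := by
      exact_mod_cast hup n H hH
    have h2 : ((n.choose 3 : ℕ) : ℝ) = n * (n - 1) * (n - 2) / 6 := by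
      have h3 : ((n - 2 : ℕ) : ℝ) = n - 2 := by
        have : 2 ≤ n := by omega
        push_cast [Nat.cast_sub this]
        ring
      rw [Nat.cast_choose_eq_ascPochhammer_div]
      simp [ascPochhammer_succ_eval, Nat.factorial]
      rw [h3]
      ring
    have h4 : 7 / ε + 3 ≤ (n : ℝ) := by
      have h5 : ((⌈7 / ε⌉₊ + 3 : ℕ) : ℝ) ≤ n := by exact_mod_cast hn
      push_cast at h5
      linarith [Nat.le_ceil (7 / ε)]
    have h6 : 7 ≤ ε * (n - 3) := by
      have h7 : 7 / ε ≤ n - 3 := by linarith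
      rw [div_le_iff₀ hε] at h7
      linarith
    have hn0 : (0 : ℝ) ≤ n := Nat.cast_nonneg n
    rw [h2]
    have h8 : (n : ℝ) ^ 2 * 27 ≤ (n : ℝ) ^ 2 * (4 * (ε * (n - 3))) :=
      mul_le_mul_of_nonneg_left (by linarith) (by positivity)
    nlinarith [mul_nonneg hε.le hn0]
  · obtain ⟨H, hH, h⟩ := hlow n
    refine ⟨H, hH, ?_⟩
    have h1 : ((n.choose 3 : ℕ) : ℝ) ≤ 4 * H.card := by exact_mod_cast h
    have h2 : (0 : ℝ) ≤ ((n.choose 3 : ℕ) : ℝ) := Nat.cast_nonneg _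
    nlinarith [mul_nonneg hε.le h2]

end Pool.Agent.Y587.LB
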